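import Pool.Agent.helper92.ISA.Spec

/-! Row isa:THA (MP_069684_lc): basic facts about the critical probability for a target set. -/

set_option autoImplicit false

open Filter Topology

namespace Pool.Agent.ISA

open Pool.Agent.PB Pool.Agent.ISO

theorem THA_nonneg {R m : ℕ} {μ : Finset (Fin R) → ℝ} {A : Set ℕ} {q : ℝ} (h : Strat R m μ) (h' : Val A q μ) : 0 ≤ q :=
  le_trans (Finset.sum_nonneg fun K _ => h.nonneg K) (h' ∅)

theorem THA_one (m : ℕ) (A : Set ℕ) (hm : 1 ≤ m) : ∃ (R : ℕ) (μ : Finset (Fin R) → ℝ), Strat R m μ ∧ Val A 1 μ := by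
  have hs : Strat 1 m (fun K : Finset (Fin 1) => if K = {0} then (1 : ℝ) else 0) := by
    refine ⟨fun K => ?_, fun K hK => ?_, ?_⟩
    · split_ifs <;> norm_num
    · split_ifs at hK with h
      · rw [h, Finset.card_singleton]
        exact ⟨le_rfl, hm⟩
      · exact absurd rfl hK
    · rw [Finset.sum_ite_eq' Finset.univ]
      simp
  refine ⟨1, _, hs, fun T => ?_⟩
  refine le_trans ?_ hs.sum.le
  classical
  exact Finset.sum_le_sum_of_subset_of_nonneg (Finset.filter_subset _ _) fun K _ _ => hs.nonneg K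

theorem THA_mono {R m m' : ℕ} {μ : Finset (Fin R) → ℝ} (h : Strat R m' μ) (hm : m' ≤ m) : Strat R m μ :=
  ⟨h.nonneg, fun K hK => ⟨(h.supp K hK).1, (h.supp K hK).2.trans hm⟩, h.sum⟩

theorem THA_proof (hTHL : ISO.THL_stmt) (hTRN : ISA.TRN_stmt) : THA_stmt := by
  intro m A hm hA
  have hbdd : ∀ m1 : ℕ, BddBelow {q : ℝ | ∃ (R : ℕ) (μ : Finset (Fin R) → ℝ), Strat R m1 μ ∧ Val A q μ} := by
    intro m1
    refine ⟨0, ?_⟩
    rintro q ⟨R, μ, h1, h2⟩
    exact THA_nonneg h1 h2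
  have hne : ∀ m1 : ℕ, 1 ≤ m1 → ({q : ℝ | ∃ (R : ℕ) (μ : Finset (Fin R) → ℝ), Strat R m1 μ ∧ Val A q μ}).Nonempty :=
    fun m1 h1 => ⟨1, THA_one m1 A h1⟩
  have hm0 : (1 : ℝ) ≤ m := by exact_mod_cast hm
  have hle : ∀ (q : ℝ) (R : ℕ) (μ : Finset (Fin R) → ℝ), Strat R m μ → Val A q μ → crit m A ≤ q :=
    fun q R μ h1 h2 => csInf_le (hbdd m) ⟨R, μ, h1, h2⟩
  have h0 : 0 ≤ crit m A := by
    refine le_csInf (hne m hm) ?_
    rintro q ⟨R, μ, h1, h2⟩
    exact THA_nonneg h1 h2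
  have h1 : crit m A ≤ 1 := by
    obtain ⟨R, μ, h1, h2⟩ := THA_one m A hm
    exact hle 1 R μ h1 h2
  have hlog : 0 ≤ Real.log (2 * m) := Real.log_nonneg (by linarith)
  have hpos : 0 < Real.log (2 * m) + 1 := by linarith
  have h5 : 1 / 2 ≤ crit m A * (Real.log (2 * m) + 1) := by
    rw [← div_le_iff₀ hpos]
    refine le_csInf (hne m hm) ?_
    rintro q ⟨R, μ, h2, h3⟩
    rw [div_le_iff₀ hpos]
    have h4 : Val (Set.Icc 1 1) q μ := by
      refine hTRN.2.2.2 R m q μ (Set.Icc 1 1) A ?_ h2 h3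
      intro c hc
      have hc' : c = 1 := le_antisymm hc.2 hc.1
      rw [hc']
      exact hA
    have h6 : ValLe 1 q μ := (hTRN.1 R 1 q μ).1 h4
    have h7 := hTHL R m 1 q (1 / 2) μ hm le_rfl (by norm_num) (by norm_num) h2 h6
    have h8 : (m : ℝ) / (1 / 2) = 2 * m := by ring
    have h9 : ((harmonic 1 : ℚ) : ℝ) = 1 := by
      have : harmonic 1 = 1 := by simp [harmonic]
      rw [this]
      norm_num
    rw [h8, h9] at h7
    linarith
  refine ⟨hle, ?_, ?_, h1, h5, ?_⟩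
  · intro q hq
    obtain ⟨q', ⟨R, μ, h2, h3⟩, h4⟩ := exists_lt_of_csInf_lt (hne m hm) hq
    exact ⟨R, μ, h2, fun T => (h3 T).trans h4.le⟩
  · refine lt_of_le_of_ne h0 ?_
    intro h2
    rw [← h2, zero_mul] at h5
    norm_num at h5
  · intro m' hm' hmm
    refine le_csInf (hne m' hm') ?_
    rintro q ⟨R, μ, h2, h3⟩
    exact hle q R μ (THA_mono h2 hmm) h3

end Pool.Agent.ISA
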